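import Pool.Agent.Q289.OC.Basic

/-!
# Elimination of vertices (Schur complements) and the octopus inequality
-/

set_option autoImplicit false

namespace Pool.Agent.Q241.OC

open Equiv Finset Q289.OC
open scoped InnerProductSpace

/-- the induction predicate -/
def Good (n : ℕ) (K G : Matrix (Fin n) (Fin n) ℝ) (S : Finset (Fin n)) : Prop :=
  ∃ R : Matrix (Fin n) (Fin n) ℝ,
      (∀ x y, R x y = R y x) ∧
      (∀ x ∈ S, ∀ y ∈ S, x ≠ y → R x y ≤ 0) ∧
      (∀ x ∈ S, 0 < ∑ y ∈ S, R x y) ∧
      (∀ x ∈ S, ∀ w ∈ S, ∑ y ∈ S, R x y * G y w = if x = w then 1 else 0) ∧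
      (∀ (W : Type) [NormedAddCommGroup W] [InnerProductSpace ℝ W]
        (ρ : Perm (Fin n) →* (W →ₗ[ℝ] W)), Uni ρ → ∀ v : W,
        ∑ x ∈ S, ∑ y ∈ S, -R x y * DD ρ v x y ≤ ∑ x, ∑ y, -K x y * DD ρ v x y)

theorem good_erase (hO : OctStm) {n : ℕ} {K G : Matrix (Fin n) (Fin n) ℝ} {S : Finset (Fin n)}
    (h : Good n K G S) {z : Fin n} (hz : z ∈ S) : Good n K G (S.erase z) := by
  obtain ⟨R, hs, hoff, hrow, hinv, hD⟩ := h
  have split : ∀ f : Fin n → ℝ, ∑ y ∈ S, f y = f z + ∑ y ∈ S.erase z, f y := fun f =>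
    (Finset.add_sum_erase S f hz).symm
  have hnz : ∑ y ∈ S.erase z, R z y ≤ 0 := Finset.sum_nonpos fun y hy =>
    hoff z hz y (Finset.mem_of_mem_erase hy) (Finset.ne_of_mem_erase hy).symm
  have hrz := hrow z hz
  have hrz' := hrz
  rw [split] at hrz'
  have hDz : 0 < R z z := by linarith
  refine ⟨fun x y => R x y - R x z * R z y / R z z, ?_, ?_, ?_, ?_, ?_⟩
  · intro x y
    show R x y - R x z * R z y / R z z = R y x - R y z * R z x / R z z
    rw [hs x y, hs x z, hs z y]
    ring
  · intro x hx y hy hxy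
    have h1 := hoff x (Finset.mem_of_mem_erase hx) y (Finset.mem_of_mem_erase hy) hxy
    have h2 := hoff x (Finset.mem_of_mem_erase hx) z hz (Finset.ne_of_mem_erase hx)
    have h3 := hoff z hz y (Finset.mem_of_mem_erase hy) (Finset.ne_of_mem_erase hy).symm
    have h4 : 0 ≤ R x z * R z y / R z z :=
      div_nonneg (mul_nonneg_of_nonpos_of_nonpos h2 h3) hDz.le
    show R x y - R x z * R z y / R z z ≤ 0
    linarith
  · intro x hx
    show 0 < ∑ y ∈ S.erase z, (R x y - R x z * R z y / R z z)
    have h1 := hrow x (Finset.mem_of_mem_erase hx)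
    have h2 := hoff x (Finset.mem_of_mem_erase hx) z hz (Finset.ne_of_mem_erase hx)
    have e1 : ∑ y ∈ S.erase z, (R x y - R x z * R z y / R z z) =
        (∑ y ∈ S, R x y) - R x z * (∑ y ∈ S, R z y) / R z z := by
      rw [Finset.sum_sub_distrib, split (fun y => R x y), split (fun y => R z y),
        ← Finset.sum_div, ← Finset.mul_sum]
      field_simp
      ring
    rw [e1]
    have h5 : R x z * (∑ y ∈ S, R z y) / R z z ≤ 0 :=
      div_nonpos_of_nonpos_of_nonneg (mul_nonpos_of_nonpos_of_nonneg h2 hrz.le) hDz.le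
    linarith
  · intro x hx w hw
    show ∑ y ∈ S.erase z, (R x y - R x z * R z y / R z z) * G y w = _
    have h1 := hinv x (Finset.mem_of_mem_erase hx) w (Finset.mem_of_mem_erase hw)
    have h2 := hinv z hz w (Finset.mem_of_mem_erase hw)
    rw [if_neg (Finset.ne_of_mem_erase hw).symm, split] at h2
    rw [split] at h1
    have e1 : ∑ y ∈ S.erase z, (R x y - R x z * R z y / R z z) * G y w =
        (∑ y ∈ S.erase z, R x y * G y w) - R x z / R z z * ∑ y ∈ S.erase z, R z y * G y w := by
      rw [Finset.mul_sum, ← Finset.sum_sub_distrib]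
      exact Finset.sum_congr rfl fun y _ => by ring
    have h3 : ∑ y ∈ S.erase z, R z y * G y w = -(R z z * G z w) := by linarith
    rw [e1, h3, ← h1]
    field_simp
    ring
  · intro W _ _ ρ hρ v
    refine le_trans ?_ (hD W ρ hρ v)
    set b : Fin n → ℝ := fun y => if y ∈ S.erase z then -R z y else 0 with hb
    have hb0 : ∀ y, 0 ≤ b y := by
      intro y
      rw [hb]
      dsimp only
      split_ifs with hy
      · have := hoff z hz y (Finset.mem_of_mem_erase hy) (Finset.ne_of_mem_erase hy).symm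
        linarith
      · exact le_rfl
    have hbz : b z = 0 := by
      rw [hb]
      dsimp only
      rw [if_neg (Finset.notMem_erase z S)]
    have hsb : ∀ f : Fin n → ℝ, ∑ y, b y * f y = ∑ y ∈ S.erase z, -R z y * f y := by
      intro f
      rw [← Finset.sum_filter_add_sum_filter_not univ (fun y => y ∈ S.erase z)]
      rw [Finset.sum_eq_zero (s := univ.filter (fun y => ¬ y ∈ S.erase z))]
      · rw [add_zero, Finset.filter_univ_mem]
        refine Finset.sum_congr rfl fun y hy => ?_
        rw [hb]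
        dsimp only
        rw [if_pos hy]
      · intro y hy
        rw [hb]
        dsimp only
        rw [if_neg (Finset.mem_filter.mp hy).2, zero_mul]
    have hO' := hO n W ρ hρ v z b hb0 hbz
    have hC : ∑ y, b y = ∑ y ∈ S.erase z, -R z y := by
      have := hsb (fun _ => 1)
      simpa using this
    have hCD : ∑ y, b y ≤ R z z := by
      rw [hC, Finset.sum_neg_distrib]
      linarith
    have hCn : 0 ≤ ∑ y, b y := Finset.sum_nonneg fun y _ => hb0 y
    have hE : ∑ y, b y * DD ρ v z y = ∑ y ∈ S.erase z, -R z y * DD ρ v z y := hsb _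
    have hEn : 0 ≤ ∑ y, b y * DD ρ v z y :=
      Finset.sum_nonneg fun y _ => mul_nonneg (hb0 y) (hρ.DD_nonneg v z y)
    have hQ : ∑ i, ∑ j, b i * b j * DD ρ v i j =
        ∑ x ∈ S.erase z, ∑ y ∈ S.erase z, R x z * R z y * DD ρ v x y := by
      have e1 : ∀ i, ∑ j, b i * b j * DD ρ v i j = b i * ∑ j, b j * DD ρ v i j := by
        intro i
        rw [Finset.mul_sum]
        exact Finset.sum_congr rfl fun j _ => by ring
      rw [Finset.sum_congr rfl fun i _ => e1 i, hsb]
      refine Finset.sum_congr rfl fun x _ => ?_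
      rw [hsb, Finset.mul_sum]
      refine Finset.sum_congr rfl fun y _ => ?_
      rw [hs x z]
      ring
    have hS : ∑ x ∈ S, ∑ y ∈ S, -R x y * DD ρ v x y =
        (∑ x ∈ S.erase z, ∑ y ∈ S.erase z, -R x y * DD ρ v x y) +
          2 * ∑ y ∈ S.erase z, -R z y * DD ρ v z y := by
      rw [split]
      rw [split (fun y => -R z y * DD ρ v z y), DD_self, mul_zero, zero_add]
      have e2 : ∑ x ∈ S.erase z, ∑ y ∈ S, -R x y * DD ρ v x y =
          ∑ x ∈ S.erase z, (-R z x * DD ρ v z x + ∑ y ∈ S.erase z, -R x y * DD ρ v x y) := by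
        refine Finset.sum_congr rfl fun x _ => ?_
        rw [split, hs x z, DD_comm v x z]
      rw [e2, Finset.sum_add_distrib]
      ring
    have hL : ∑ x ∈ S.erase z, ∑ y ∈ S.erase z,
        -(R x y - R x z * R z y / R z z) * DD ρ v x y =
        (∑ x ∈ S.erase z, ∑ y ∈ S.erase z, -R x y * DD ρ v x y) +
          (∑ x ∈ S.erase z, ∑ y ∈ S.erase z, R x z * R z y * DD ρ v x y) / R z z := by
      rw [Finset.sum_div, ← Finset.sum_add_distrib]
      refine Finset.sum_congr rfl fun x _ => ?_
      rw [Finset.sum_div, ← Finset.sum_add_distrib]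
      refine Finset.sum_congr rfl fun y _ => ?_
      ring
    show ∑ x ∈ S.erase z, ∑ y ∈ S.erase z,
        -(R x y - R x z * R z y / R z z) * DD ρ v x y ≤ _
    rw [hL, hS, ← hQ, ← hE]
    have h6 : (∑ i, ∑ j, b i * b j * DD ρ v i j) / R z z ≤ 2 * ∑ y, b y * DD ρ v z y := by
      rw [div_le_iff₀ hDz]
      refine hO'.trans ?_
      nlinarith [mul_nonneg (sub_nonneg.mpr hCD) hEn]
    linarith

/-- elimination of the vertices outside `S` -/
theorem elim (hO : OctStm) : ElimStm := by
  intro n K G hK hKG S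
  have base : Good n K G univ := by
    refine ⟨K, hK.symm, fun x _ y _ hxy => hK.off x y hxy, fun x _ => hK.row x, ?_,
      fun W _ _ ρ _ v => le_rfl⟩
    intro x _ w _
    have := congrFun (congrFun hKG x) w
    rw [Matrix.mul_apply, Matrix.one_apply] at this
    exact this
  have key : ∀ T : Finset (Fin n), Good n K G (univ \ T) := by
    intro T
    induction T using Finset.induction_on with
    | empty => simpa using base
    | insert z T hz ih =>
      have h1 : univ \ insert z T = (univ \ T).erase z := by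
        ext y
        simp only [Finset.mem_sdiff, Finset.mem_univ, true_and, Finset.mem_insert,
          Finset.mem_erase, not_or]
      rw [h1]
      exact good_erase hO ih (by simp [hz])
  have h2 := key (univ \ S)
  rw [Finset.sdiff_sdiff_eq_self (Finset.subset_univ S)] at h2
  exact h2

end Pool.Agent.Q241.OC
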