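import Pool.Agent.Q289.OC.Basic

/-!
# The rates of the trace process in terms of the Green function
-/

set_option autoImplicit false

namespace Pool.Agent.Q241.OC

open Equiv Finset Q289.OC
open scoped InnerProductSpace

/-- the rates of the trace process on `S` -/
theorem trace (h : ElimStm) : TraceStm := by
  classical
  intro n K G hK hKG hGs hG0 hGp S
  obtain ⟨R, hs, hoff, hrow, hinv, hD⟩ := h n K G hK hKG S
  have r0 : ∀ x y, 0 ≤ (if x ∈ S ∧ y ∈ S ∧ x ≠ y then -R x y else 0) := by
    intro x y
    split_ifs with hxy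
    · have := hoff x hxy.1 y hxy.2.1 hxy.2.2
      linarith
    · exact le_rfl
  refine ⟨fun x y => if x ∈ S ∧ y ∈ S ∧ x ≠ y then -R x y else 0, r0, ?_, ?_⟩
  · intro x hx y hy hxy
    show (G x y - ∑ z ∈ (S.erase x).erase y, G x z * G z y / G z z) / (G x x * G y y) ≤
      if x ∈ S ∧ y ∈ S ∧ x ≠ y then -R x y else 0
    rw [if_pos ⟨hx, hy, hxy⟩]
    have hR : ∀ z ∈ S, x ≠ z → 0 ≤ -R x z := fun z hz hxz => by
      have := hoff x hx z hz hxz
      linarith
    have two : ∀ z ∈ S, x ≠ z → ∀ f : Fin n → ℝ,
        ∑ u ∈ S, f u = f x + (f z + ∑ u ∈ (S.erase x).erase z, f u) := by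
      intro z hz hxz f
      rw [← Finset.add_sum_erase S f hx,
        ← Finset.add_sum_erase (S.erase x) f (Finset.mem_erase.mpr ⟨hxz.symm, hz⟩)]
    have h1 : 1 ≤ R x x * G x x := by
      have e := hinv x hx x hx
      rw [if_pos rfl, ← Finset.add_sum_erase S _ hx] at e
      have h2 : ∑ u ∈ S.erase x, R x u * G u x ≤ 0 := Finset.sum_nonpos fun u hu =>
        mul_nonpos_of_nonpos_of_nonneg
          (hoff x hx u (Finset.mem_of_mem_erase hu) (Finset.ne_of_mem_erase hu).symm) (hG0 u x)
      linarith
    have hRx : 0 < R x x := by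
      by_contra hcon
      push Not at hcon
      have := mul_nonpos_of_nonpos_of_nonneg hcon (hG0 x x)
      linarith
    have h3 : ∀ z ∈ S, x ≠ z → -R x z ≤ R x x * G x z / G z z := by
      intro z hz hxz
      have e := hinv x hx z hz
      rw [if_neg hxz, two z hz hxz] at e
      have h2 : ∑ u ∈ (S.erase x).erase z, R x u * G u z ≤ 0 := Finset.sum_nonpos fun u hu =>
        mul_nonpos_of_nonpos_of_nonneg
          (hoff x hx u (Finset.mem_of_mem_erase (Finset.mem_of_mem_erase hu))
            (Finset.ne_of_mem_erase (Finset.mem_of_mem_erase hu)).symm) (hG0 u z)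
      rw [le_div_iff₀ (hGp z)]
      linarith
    have h4 : R x x * (G x y - ∑ z ∈ (S.erase x).erase y, G x z * G z y / G z z) ≤
        -R x y * G y y := by
      have e := hinv x hx y hy
      rw [if_neg hxy, two y hy hxy] at e
      have h2 : ∑ u ∈ (S.erase x).erase y, -R x u * G u y ≤
          R x x * ∑ z ∈ (S.erase x).erase y, G x z * G z y / G z z := by
        rw [Finset.mul_sum]
        refine Finset.sum_le_sum fun u hu => ?_
        have h5 := h3 u (Finset.mem_of_mem_erase (Finset.mem_of_mem_erase hu))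
          (Finset.ne_of_mem_erase (Finset.mem_of_mem_erase hu)).symm
        calc -R x u * G u y ≤ R x x * G x u / G u u * G u y :=
              mul_le_mul_of_nonneg_right h5 (hG0 u y)
          _ = R x x * (G x u * G u y / G u u) := by ring
      have h6 : ∑ u ∈ (S.erase x).erase y, -R x u * G u y =
          -∑ u ∈ (S.erase x).erase y, R x u * G u y := by
        rw [← Finset.sum_neg_distrib]
        exact Finset.sum_congr rfl fun u _ => by ring
      rw [h6] at h2
      nlinarith [e, h2]
    rw [div_le_iff₀ (mul_pos (hGp x) (hGp y))]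
    set A := G x y - ∑ z ∈ (S.erase x).erase y, G x z * G z y / G z z with hA
    rcases le_or_gt A 0 with hA0 | hA0
    · exact hA0.trans (mul_nonneg (hR y hy hxy) (mul_pos (hGp x) (hGp y)).le)
    · have h7 : A ≤ R x x * G x x * A := by nlinarith
      have h8 : R x x * A * G x x ≤ -R x y * G y y * G x x :=
        mul_le_mul_of_nonneg_right h4 (hG0 x x)
      nlinarith
  · intro W _ _ ρ hρ v
    refine le_trans (le_of_eq ?_) (hD W ρ hρ v)
    refine Finset.sum_congr rfl fun x hx => Finset.sum_congr rfl fun y hy => ?_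
    show (if x ∈ S ∧ y ∈ S ∧ x ≠ y then -R x y else 0) * DD ρ v x y = -R x y * DD ρ v x y
    by_cases hxy : x = y
    · subst hxy
      rw [DD_self, mul_zero, mul_zero]
    · rw [if_pos ⟨hx, hy, hxy⟩]

end Pool.Agent.Q241.OC
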